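import Mathlib

/-!
Planar series whose achievement set is comeagre and conull but not the whole plane (MP_160bbb_an).
-/

open Filter Topology MeasureTheory Finset

namespace Pool.Agent.N343.AS

/-- The achievement set: the set of sums of convergent subseries, terms in their original order. -/
def ach (x : ℕ → ℝ × ℝ) : Set (ℝ × ℝ) :=
  {p | ∃ ε : ℕ → Bool,
    Tendsto (fun N => ∑ n ∈ range N, if ε n then x n else 0) atTop (𝓝 p)}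

/-- The sum range: the set of sums of convergent rearrangements. -/
def sr (x : ℕ → ℝ × ℝ) : Set (ℝ × ℝ) :=
  {p | ∃ σ : Equiv.Perm ℕ, Tendsto (fun N => ∑ n ∈ range N, x (σ n)) atTop (𝓝 p)}

/-! ### Part 1: a general series built in levels -/

/-- copies of each of the two vectors `±(X N, 2^(-N))` at level `N` -/
def MM (A : ℕ → ℕ) : ℕ → ℕ
  | 0 => A 0 + 1
  | N + 1 => A (N + 1) + 2 * A N + 2 ^ (N + 1)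

/-- first index of level `N` -/
def st (n : ℕ → ℕ) (A : ℕ → ℕ) (N : ℕ) : ℕ := ∑ m ∈ range N, (n m + 2 * MM A m)

/-- Level `N`: first the `n N` vectors `(c N k, 0)`, then `2 * MM A N` alternating vectors
`(X, Y), -(X, Y), (X, Y), ...` with `X = X N`, `Y = 2^(-N)`. -/
def isSer (n : ℕ → ℕ) (c : ℕ → ℕ → ℝ) (X : ℕ → ℝ) (A : ℕ → ℕ) (x : ℕ → ℝ × ℝ) : Prop :=
  ∀ N, (∀ k < n N, x (st n A N + k) = (c N k, 0)) ∧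
    (∀ k < 2 * MM A N, x (st n A N + n N + k) = ((-1) ^ k * X N, (-1) ^ k * (1 / 2) ^ N))

/-- hypotheses on the data -/
structure Hyp (n : ℕ → ℕ) (c : ℕ → ℕ → ℝ) (X : ℕ → ℝ) (A : ℕ → ℕ) : Prop where
  cpos : ∀ N, ∀ k < n N, 0 < c N k
  npos : ∀ N, 0 < n N
  csum : Summable (fun N => ∑ k ∈ range (n N), c N k)
  Xpos : ∀ N, 0 < X N
  Xdec : ∀ N, 4 * X (N + 1) ≤ X N
  Xsum : Summable (fun N => 2 ^ N * X N)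
  XY : ∀ N, X N ≤ (1 / 2) ^ N
  AX : ∀ N, 1 ≤ (A N : ℝ) * X N

/-- the criterion for membership in the achievement set -/
def crit (n : ℕ → ℕ) (c : ℕ → ℕ → ℝ) (X : ℕ → ℝ) (A : ℕ → ℕ) (p : ℝ × ℝ) : Prop :=
  ∃ (S : ℕ → Finset ℕ) (j : ℕ → ℤ), (∀ N, S N ⊆ range (n N)) ∧ (∀ N, |j N| ≤ (MM A N : ℤ)) ∧
    Tendsto (fun K => ∑ N ∈ range K, (∑ k ∈ S N, c N k + (j N : ℝ) * X N)) atTop (𝓝 p.1) ∧
    Tendsto (fun K => ∑ N ∈ range K, (j N : ℝ) * (1 / 2) ^ N) atTop (𝓝 p.2)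

def S_EXI : Prop := ∀ (n : ℕ → ℕ) (c : ℕ → ℕ → ℝ) (X : ℕ → ℝ) (A : ℕ → ℕ),
  ∃ x : ℕ → ℝ × ℝ, isSer n c X A x

def S_CON : Prop := ∀ (n : ℕ → ℕ) (c : ℕ → ℕ → ℝ) (X : ℕ → ℝ) (A : ℕ → ℕ), Hyp n c X A →
  ∀ x : ℕ → ℝ × ℝ, isSer n c X A x →
    (∃ s, Tendsto (fun N => ∑ m ∈ range N, x m) atTop (𝓝 s)) ∧ ¬ Summable (fun m => ‖x m‖)

/-- converse direction: from the achievement set to the criterion -/
def S_CRA : Prop := ∀ (n : ℕ → ℕ) (c : ℕ → ℕ → ℝ) (X : ℕ → ℝ) (A : ℕ → ℕ), Hyp n c X A →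
  ∀ x : ℕ → ℝ × ℝ, isSer n c X A x → ∀ p, p ∈ ach x → crit n c X A p

def S_CRB : Prop := ∀ (n : ℕ → ℕ) (c : ℕ → ℕ → ℝ) (X : ℕ → ℝ) (A : ℕ → ℕ), Hyp n c X A →
  ∀ x : ℕ → ℝ × ℝ, isSer n c X A x → ∀ p, crit n c X A p → p ∈ ach x

/-- Riemann's rearrangement theorem in dimension one. -/
def S_RIE : Prop := ∀ a : ℕ → ℝ, Tendsto a atTop (𝓝 0) →
  ¬ Summable (fun n => max (a n) 0) → ¬ Summable (fun n => max (-a n) 0) → ∀ p : ℝ,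
    ∃ σ : Equiv.Perm ℕ, Tendsto (fun N => ∑ n ∈ range N, a (σ n)) atTop (𝓝 p)

/-- a real sequence with all rearrangement sums -/
def Rie (a : ℕ → ℝ) : Prop := Tendsto a atTop (𝓝 0) ∧
  ¬ Summable (fun n => max (a n) 0) ∧ ¬ Summable (fun n => max (-a n) 0)

/-- merging: `g` splits the indices into a summable part, triples and singles -/
def S_MER : Prop := ∀ (x : ℕ → ℝ × ℝ) (g : ℕ ≃ ℕ ⊕ ((ℕ × Fin 3) ⊕ ℕ)) (h : ℕ → ℝ),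
  Summable (fun n => ‖x (g.symm (Sum.inl n))‖) →
  (∀ k : Fin 3, Tendsto (fun n => x (g.symm (Sum.inr (Sum.inl (n, k))))) atTop (𝓝 0)) →
  (∀ n, ∑ k : Fin 3, x (g.symm (Sum.inr (Sum.inl (n, k)))) = (h n, 0)) → Rie h →
  Summable (fun n => ‖(x (g.symm (Sum.inr (Sum.inr n)))).1‖) →
  Rie (fun n => (x (g.symm (Sum.inr (Sum.inr n)))).2) → sr x = Set.univ

/-- splitting of the indices of the series: `lp, ep` level and sign of the triple `n`,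
`lv, ev` level and sign of the single `n` -/
def S_SPL : Prop := ∀ (n : ℕ → ℕ) (c : ℕ → ℕ → ℝ) (X : ℕ → ℝ) (A : ℕ → ℕ), Hyp n c X A →
  ∀ x : ℕ → ℝ × ℝ, isSer n c X A x → ∃ (g : ℕ ≃ ℕ ⊕ ((ℕ × Fin 3) ⊕ ℕ))
    (lp lv : ℕ → ℕ) (ep ev : ℕ → ℝ),
    Summable (fun m => ‖x (g.symm (Sum.inl m))‖) ∧
    (∀ m, x (g.symm (Sum.inr (Sum.inl (m, 0)))) = (ep m * X (lp m), ep m * (1 / 2) ^ (lp m))) ∧
    (∀ m, x (g.symm (Sum.inr (Sum.inl (m, 1))))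
      = (-ep m * X (lp m + 1), -ep m * (1 / 2) ^ (lp m + 1))) ∧
    (∀ m, x (g.symm (Sum.inr (Sum.inl (m, 2))))
      = (-ep m * X (lp m + 1), -ep m * (1 / 2) ^ (lp m + 1))) ∧
    (∀ m, x (g.symm (Sum.inr (Sum.inr m))) = (ev m * X (lv m), ev m * (1 / 2) ^ (lv m))) ∧
    (∀ m, ep m = 1 ∨ ep m = -1) ∧ (∀ m, ev m = 1 ∨ ev m = -1) ∧
    (∀ N, {m | lp m = N ∧ ep m = 1}.ncard = A N ∧ {m | lp m = N ∧ ep m = 1}.Finite) ∧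
    (∀ N, {m | lp m = N ∧ ep m = -1}.ncard = A N ∧ {m | lp m = N ∧ ep m = -1}.Finite) ∧
    (∀ N, {m | lv m = N ∧ ev m = 1}.ncard = 2 ^ N ∧ {m | lv m = N ∧ ev m = 1}.Finite) ∧
    (∀ N, {m | lv m = N ∧ ev m = -1}.ncard = 2 ^ N ∧ {m | lv m = N ∧ ev m = -1}.Finite)

/-- levels with copies give sequences with all rearrangement sums -/
def S_CNT : Prop := ∀ (l : ℕ → ℕ) (e : ℕ → ℝ) (C : ℕ → ℕ) (w : ℕ → ℝ),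
  (∀ m, e m = 1 ∨ e m = -1) →
  (∀ N, {m | l m = N ∧ e m = 1}.ncard = C N ∧ {m | l m = N ∧ e m = 1}.Finite) →
  (∀ N, {m | l m = N ∧ e m = -1}.ncard = C N ∧ {m | l m = N ∧ e m = -1}.Finite) →
  (∀ N, 0 < w N) → Tendsto w atTop (𝓝 0) →
  ((∀ N, 1 / 2 ≤ (C N : ℝ) * w N) → Rie (fun m => e m * w (l m))) ∧
  Tendsto (fun m => w (l m)) atTop (𝓝 0) ∧
  (Summable (fun N => (C N : ℝ) * w N) → Summable (fun m => |e m * w (l m)|))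

def S_SRR : Prop := ∀ (n : ℕ → ℕ) (c : ℕ → ℕ → ℝ) (X : ℕ → ℝ) (A : ℕ → ℕ), Hyp n c X A →
  ∀ x : ℕ → ℝ × ℝ, isSer n c X A x → sr x = Set.univ

/-! ### Part 2: the digit system -/

/-- `2 ^ Q i` is the product of the bases `2 ^ (l + 4)`, `l ≤ i` -/
def Q : ℕ → ℕ
  | 0 => 4
  | i + 1 => Q i + (i + 5)

def E : ℕ → ℕ
  | 0 => 0
  | N + 1 => 2 * E N + Q N + 3 * N + 12

def L (N : ℕ) : ℕ := E N + 2 * N + 12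

/-- scale of level `N`; level `N` treats remainders in `[0, Z N)`, its unit is `Z (N + 1)` -/
noncomputable def Z (N : ℕ) : ℝ := (1 / 2) ^ (E N)

/-- weight of position `i ≤ N` of level `N` in units `Z (N + 1)` -/
def U (N i : ℕ) : ℕ := 2 ^ (Q N - Q i + N + L N)

/-- shift amount at position `i` -/
noncomputable def sh (i : ℕ) : ℝ := 2 ^ (i + 2) / 2 ^ (Q i)

/-- class of the `k`-th copy at position `i` of level `N` -/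
noncomputable def cls (N i k : ℕ) : ℝ :=
  (if k % 2 = 0 then 1 else -1) *
    (if k / 2 = 0 then sh i else if k / 2 < 2 ^ i then ((k / 2 : ℕ) : ℝ) * 2 ^ (N - i) else 0)

/-- index type of the digit terms of level `N` -/
abbrev T (N : ℕ) : Type := (Σ i : Fin (N + 1), Fin (2 ^ ((i : ℕ) + 4) - 1)) ⊕ Fin (L N)

/-- the digit terms of level `N` -/
noncomputable def cT (N : ℕ) : T N → ℝ
  | Sum.inl t => ((U N t.1 : ℝ) + cls N t.1 t.2) * Z (N + 1)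
  | Sum.inr m => 2 ^ (N + (m : ℕ)) * Z (N + 1)

/-- the criterion for the concrete system (`M` = number of copies) -/
def critT (M : ℕ → ℕ) (p : ℝ × ℝ) : Prop :=
  ∃ (S : ∀ N, Finset (T N)) (j : ℕ → ℤ), (∀ N, |j N| ≤ (M N : ℤ)) ∧
    Tendsto (fun K => ∑ N ∈ range K, (∑ t ∈ S N, cT N t + (j N : ℝ) * Z (N + 1)))
      atTop (𝓝 p.1) ∧
    Tendsto (fun K => ∑ N ∈ range K, (j N : ℝ) * (1 / 2) ^ N) atTop (𝓝 p.2)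

/-- number of horizontal packets -/
def AA (N : ℕ) : ℕ := (N + 1) * 2 ^ (E (N + 1))

/-- the remainder `a` of level `N` is flexible of order `i` -/
def Good (N i : ℕ) (a : ℝ) : Prop :=
  0 ≤ a ∧ a < Z N ∧ (2 : ℤ) ^ (i + 1) + 1 ≤ ⌊a * 2 ^ (Q i) / Z N⌋ % 2 ^ (i + 4) ∧
    ⌊a * 2 ^ (Q i) / Z N⌋ % 2 ^ (i + 4) ≤ (2 : ℤ) ^ (i + 4) - 2 - 2 ^ (i + 1)

def S_POS : Prop := ∀ N i : ℕ, i ≤ N →
  (∀ ν : ℕ, ν ≤ 2 ^ (i + 4) - 1 → ∃ S : Finset (Fin (2 ^ (i + 4) - 1)), S.card = ν ∧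
    ∑ k ∈ S, cls N i k = 0) ∧
  (∀ ν : ℕ, 2 ^ (i + 1) ≤ ν → ν ≤ 2 ^ (i + 4) - 1 - 2 ^ (i + 1) → ∀ σ : ℤ, |σ| ≤ 1 →
    ∀ r : ℕ, r < 2 ^ i → ∃ S : Finset (Fin (2 ^ (i + 4) - 1)), S.card = ν ∧
      ∑ k ∈ S, cls N i k = σ * sh i + r * 2 ^ (N - i))

def S_MIX : Prop := ∀ N W : ℕ, 2 ^ N ∣ W → W < 2 ^ (E (N + 1) - E N) →
  (∀ l ≤ N, (W / U N l) % 2 ^ (l + 4) ≤ 2 ^ (l + 4) - 1) ∧
  ∃ lam < 2 ^ (L N), W = ∑ l ∈ range (N + 1), (W / U N l) % 2 ^ (l + 4) * U N l + lam * 2 ^ N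

def S_LOW : Prop := ∀ n lam : ℕ, lam < 2 ^ n → ∃ S : Finset (Fin n),
  ∑ m ∈ S, (2 : ℝ) ^ (m : ℕ) = lam

def S_STEP : Prop := ∀ (N i : ℕ) (a b : ℝ), i ≤ N → Good N i a → |b| ≤ 2 ^ (L N) - 2 →
  ∀ σ : ℤ, |σ| ≤ 1 → ∃ (S : Finset (T N)) (j : ℤ), |j| ≤ 2 ^ (N + L N) ∧
    -(1 / 2) ^ i ≤ b - j * (1 / 2) ^ N ∧ b - j * (1 / 2) ^ N ≤ 0 ∧
    a - ∑ t ∈ S, cT N t - j * Z (N + 1)
      = (a - ⌊a / Z (N + 1)⌋ * Z (N + 1)) + σ * sh i * Z (N + 1)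

def S_SHI : Prop := ∀ (N i : ℕ) (a : ℝ), 0 ≤ a → a < Z N →
  ∃ σ : ℤ, |σ| ≤ 1 ∧ Good N i (a + σ * sh i * Z N)

/-- left and right end of the target interval of order `i` -/
noncomputable def ul (i : ℕ) : ℝ := (2 ^ (i + 1) + 1) / 2 ^ (Q i)
noncomputable def ur (i : ℕ) : ℝ := (2 ^ (i + 4) - 1 - 2 ^ (i + 1)) / 2 ^ (Q i)

def S_JGO : Prop := ∀ i : ℕ, 0 ≤ ul i ∧ ul i < ur i ∧ ur i ≤ 1 ∧ ∀ (N : ℕ) (x : ℝ),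
  Int.fract (x * 2 ^ (E N)) ∈ Set.Ioo (ul i) (ur i) → Good N i (x - ⌊x / Z N⌋ * Z N)

/-- the generic points -/
def PP : Set ℝ := {x | ∀ i, ∃ᶠ N in atTop, Int.fract (x * 2 ^ (E N)) ∈ Set.Ioo (ul i) (ur i)}

def S_GEN : Prop := ∀ M : ℕ → ℕ, (∀ N, (N + 1) * 2 ^ (E (N + 1)) ≤ M N) →
  ∀ x ∈ PP, ∀ y : ℝ, critT M (x, y)

def S_NUL : Prop := ∀ (e : ℕ → ℕ), StrictMono e → ∀ u v : ℝ, 0 ≤ u → u < v → v ≤ 1 →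
  ∀ᵐ x : ℝ, ∃ᶠ N in atTop, Int.fract (x * 2 ^ (e N)) ∈ Set.Ioo u v

def S_RES : Prop := ∀ (e : ℕ → ℕ), StrictMono e → ∀ u v : ℝ, 0 ≤ u → u < v → v ≤ 1 →
  {x : ℝ | ∃ᶠ N in atTop, Int.fract (x * 2 ^ (e N)) ∈ Set.Ioo u v} ∈ residual ℝ

/-! ### Part 3: the exceptional point -/

/-- digits of the exceptional point: `3 * vv N + 1 = 4 ^ (N + 3)` -/
def vv (N : ℕ) : ℕ := ∑ m ∈ range (N + 3), 4 ^ m

/-- tails of the exceptional point -/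
noncomputable def rr (N : ℕ) : ℝ := ∑' k : ℕ, (vv (N + k) : ℝ) * Z (N + k + 1)

def S_RR : Prop := (∀ N, rr N = vv N * Z (N + 1) + rr (N + 1)) ∧
  (∀ N, vv N * Z (N + 1) ≤ rr N ∧ rr N ≤ (vv N + 1) * Z (N + 1)) ∧
  (∀ N, 3 * vv N + 1 = 4 ^ (N + 3))

def S_TOT : Prop := (∀ N t, 0 < cT N t) ∧
  (∀ N, ∑ t, cT N t = (2 ^ (E (N + 1) - E N) - 2 ^ N) * Z (N + 1)) ∧
  (∀ N, 2 ^ (E (N + 1) - E N) * Z (N + 1) = Z N)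

/-- every digit term of level `N` is an integer multiple of `Z (N + 1) / 2 ^ Q N` -/
def S_LAT : Prop := ∀ N, ∀ t, ∃ z : ℤ, cT N t = z * (Z (N + 1) / 2 ^ (Q N))

/-- decomposition of the sum over a subset -/
def S_DEC : Prop := ∀ N, ∀ S : Finset (T N), ∃ (ν : ℕ → ℕ) (lam : ℕ) (ref : ℤ) (s : ℝ),
  (∀ l, ν l ≤ 2 ^ (l + 4) - 1) ∧ lam < 2 ^ (L N) ∧ |ref| ≤ 4 ^ N ∧ |s| ≤ 1 / 3 ∧
  ∑ t ∈ S, cT N t
    = (∑ l ∈ range (N + 1), (ν l : ℝ) * U N l + lam * 2 ^ N + ref + s) * Z (N + 1) ∧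
  ∀ i ≤ N, (∀ l, i < l → l ≤ N → ν l = 0) →
    ((2 : ℤ) ^ (N - i) ∣ ref ∧ ∃ z : ℤ, s = z / 2 ^ (Q i))

def S_UNQ : Prop := ∀ (N i : ℕ) (ν : ℕ → ℕ) (m : ℕ), i ≤ N → (∀ l, ν l ≤ 2 ^ (l + 4) - 1) →
  ∑ l ∈ range (N + 1), ν l * 2 ^ (Q N - Q l) = m * 2 ^ (Q N - Q i) →
  ∀ l, i < l → l ≤ N → ν l = 0

/-- one level at the exceptional point -/
def S_ONE : Prop := ∀ (N i : ℕ) (m : ℕ) (κ κ' : ℝ) (S : Finset (T N)) (j : ℤ), i ≤ N →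
  κ = m / 2 ^ (Q i) → κ < 1 → 0 ≤ κ' → κ' < 1 → |j| ≤ 2 ^ N →
  rr N + κ * Z N = ∑ t ∈ S, cT N t + j * Z (N + 1) + (rr (N + 1) + κ' * Z (N + 1)) →
  (∃ m' : ℕ, κ' = m' / 2 ^ (Q i)) ∧
  ∃ z : ℤ, j = vv N + z * 2 ^ (N - i) ∨ j = vv N - 1 + z * 2 ^ (N - i)

/-- remainders stay in `[0, Z N)` up to the exceptional tail -/
def S_RAN : Prop := ∀ (S : ∀ N, Finset (T N)) (j : ℕ → ℤ) (N₀ : ℕ), 1 ≤ N₀ →
  (∀ N, N₀ ≤ N → |j N| ≤ 2 ^ N) →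
  Tendsto (fun K => ∑ N ∈ range K, (∑ t ∈ S N, cT N t + (j N : ℝ) * Z (N + 1)))
      atTop (𝓝 (rr 0)) →
  ∀ N, N₀ ≤ N → ∃ m : ℕ, (m : ℝ) / 2 ^ (Q (N - 1)) < 1 ∧
    rr 0 - ∑ k ∈ range N, (∑ t ∈ S k, cT k t + (j k : ℝ) * Z (k + 1))
      = rr N + (m : ℝ) / 2 ^ (Q (N - 1)) * Z N

def S_RIG : Prop := ∀ M : ℕ → ℕ, ∀ y : ℝ, ¬ critT M (rr 0, y)

/-! ### Final -/

/-- from the concrete system to the general one -/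
def S_TRA : Prop := ∃ (n : ℕ → ℕ) (c : ℕ → ℕ → ℝ), Hyp n c (fun N => Z (N + 1)) AA ∧
  ∀ p, crit n c (fun N => Z (N + 1)) AA p ↔ critT (MM AA) p

def S_MAIN : Prop := ∃ x : ℕ → ℝ × ℝ,
  (∃ s, Tendsto (fun N => ∑ n ∈ range N, x n) atTop (𝓝 s)) ∧ ¬ Summable (fun n => ‖x n‖) ∧
  sr x = Set.univ ∧ ach x ≠ Set.univ ∧ volume (ach x)ᶜ = 0 ∧ IsMeagre (ach x)ᶜ

end Pool.Agent.N343.AS
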